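import Pool.Agent.H33.SMS.Targets2

/-!
Module PTS (board sms_modules): the parts of a number.
-/

namespace Pool.Agent.H67.SMS

open Pool.Agent.H33.SMS

theorem pf_PTS (hB : T_BAD) : T_PTS := by
  classical
  intro n hn
  have hn0 : n ≠ 0 := by omega
  set S : Finset ℕ := n.primeFactors.filter (fun p => Bad p n ∨ p ^ 2 ∣ n) with hS
  have hch : ∀ p : ℕ, ∃ er : ℕ × ℕ, p ∈ S →
      ((2 ≤ er.1 ∧ (er.2 = 0 ∨ er.2 = p * (er.1 - 1)) ∧ er.2 < n ∧ p ^ er.1 ∣ n - er.2 ∧
        p ^ er.1 ≤ n) ∧ n.factorization p ≤ er.1) := by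
    intro p
    by_cases hp : p ∈ S
    swap
    · exact ⟨(0, 0), fun h => absurd h hp⟩
    rw [hS, Finset.mem_filter, Nat.mem_primeFactors] at hp
    obtain ⟨⟨hpp, hpn, _⟩, hbad⟩ := hp
    by_cases hb : Bad p n
    · obtain ⟨j, hj, hjn, hd⟩ := hB p n hpp hpn hb
      refine ⟨(j + 1, p * j), fun _ => ⟨⟨by omega, Or.inr (by simp), hjn, hd, ?_⟩, ?_⟩⟩
      · exact (Nat.le_of_dvd (by omega) hd).trans (Nat.sub_le _ _)
      · by_contra hcon
        push Not at hcon
        have h1 : p ^ (j + 1) ∣ n :=
          (Nat.pow_dvd_pow p hcon.le).trans (Nat.ordProj_dvd n p)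
        have h2 : p ^ (j + 1) ∣ p * j := by
          have h3 : p * j = n - (n - p * j) := by omega
          rw [h3]
          exact Nat.dvd_sub h1 hd
        rw [pow_succ, mul_comm (p ^ j)] at h2
        have h4 : p ^ j ∣ j := Nat.dvd_of_mul_dvd_mul_left hpp.pos h2
        have h5 := Nat.le_of_dvd (by omega) h4
        have h6 : j < p ^ j := Nat.lt_pow_self hpp.one_lt
        omega
    · have h2 : p ^ 2 ∣ n := hbad.resolve_left hb
      have h3 : 2 ≤ n.factorization p := (hpp.pow_dvd_iff_le_factorization hn0).1 h2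
      have h4 : p ^ n.factorization p ∣ n := Nat.ordProj_dvd n p
      exact ⟨(n.factorization p, 0), fun _ => ⟨⟨h3, Or.inl rfl, by omega, by simpa using h4,
        Nat.le_of_dvd (by omega) h4⟩, le_rfl⟩⟩
  choose er her using hch
  refine ⟨S, fun p => (er p).1, fun p => (er p).2, ?_, ?_⟩
  · intro p hp
    have hpp : p.Prime := by
      rw [hS, Finset.mem_filter, Nat.mem_primeFactors] at hp
      exact hp.1.1
    exact ⟨hpp, (her p hp).1⟩
  · set g : ℕ → ℕ := fun p => if Bad p n then p ^ n.factorization p else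
      p ^ (n.factorization p - 1) with hg
    have hn1 : n = (∏ p ∈ n.primeFactors, g p) *
        ∏ p ∈ n.primeFactors.filter (fun p => ¬ Bad p n), p := by
      rw [Finset.prod_filter, ← Finset.prod_mul_distrib]
      conv_lhs => rw [← Nat.prod_factorization_pow_eq_self hn0]
      rw [Finsupp.prod, Nat.support_factorization]
      refine Finset.prod_congr rfl fun p hp => ?_
      have hpf := hp
      rw [Nat.mem_primeFactors] at hp
      have h1 : 1 ≤ n.factorization p :=
        (hp.1.dvd_iff_one_le_factorization hn0).1 hp.2.1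
      simp only [hg]
      by_cases hb : Bad p n
      · simp [hb]
      · simp only [hb, if_false, not_false_eq_true, if_true]
        rw [← pow_succ, Nat.sub_add_cancel h1]
    have hQ : 0 < ∏ p ∈ n.primeFactors.filter (fun p => ¬ Bad p n), p :=
      Finset.prod_pos fun p hp => (Nat.mem_primeFactors.1 (Finset.mem_filter.1 hp).1).1.pos
    have hKK : KK n = ∏ p ∈ n.primeFactors, g p := by
      unfold KK
      exact Nat.div_eq_of_eq_mul_left hQ hn1
    rw [hKK]
    have h1 : ∏ p ∈ n.primeFactors, g p = ∏ p ∈ S, g p := by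
      symm
      refine Finset.prod_subset (Finset.filter_subset _ _) fun p hp hpS => ?_
      rw [hS, Finset.mem_filter] at hpS
      push Not at hpS
      obtain ⟨hb, h2⟩ := hpS hp
      rw [Nat.mem_primeFactors] at hp
      have h3 : n.factorization p ≤ 1 := by
        by_contra hcon
        push Not at hcon
        exact h2 ((hp.1.pow_dvd_iff_le_factorization hn0).2 hcon)
      simp only [hg, hb, if_false]
      have h4 : n.factorization p - 1 = 0 := by omega
      rw [h4, pow_zero]
    rw [h1]
    refine Finset.prod_le_prod' fun p hp => ?_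
    have hpp : 0 < p := by
      have := hp
      rw [hS, Finset.mem_filter, Nat.mem_primeFactors] at this
      exact this.1.1.pos
    have h2 := (her p hp).2
    simp only [hg]
    split_ifs
    · exact Nat.pow_le_pow_right hpp h2
    · exact Nat.pow_le_pow_right hpp (by omega)

end Pool.Agent.H67.SMS
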